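import Pool.Agent.FWar.ResM

/-!
# MP_ee77ae_nt: `k + 1` summands represent almost all integers, for almost all polynomials of degree `k`

`Represents f m`: all but `O(X^(1-δ))` (for some `δ > 0`) of the positive integers up to `X` are sums
of exactly `m` terms `⌊f n⌋`, `n ≥ 1`.

Let `k ≥ 2`. For every leading coefficient `α > 0` (for instance `α = 1`) and almost every vector
of real lower coefficients the polynomial of degree `k` has this property for every `m ≥ k + 1`.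
(At most `C X^((k-1)/k)` integers are sums of `k - 1` terms, so `k + 1` is best possible up to one.)
-/

namespace Pool.Agent.Retired.MP_ee77ae_nt.AlmostAllIntegers

open MeasureTheory

/-- All but `O(X^(1-δ))` (for some `δ > 0`) of the positive integers up to `X` are sums of exactly `m`
terms `⌊f n⌋` with `n ≥ 1`. -/
def RepresentsAlmostAll (f : ℕ → ℝ) (m : ℕ) : Prop :=
  ∃ δ C : ℝ, 0 < δ ∧ ∀ X : ℕ, 1 ≤ X →
    ({N : ℕ | 1 ≤ N ∧ N ≤ X ∧
      ¬ ∃ n : Fin m → ℕ, (∀ i, 1 ≤ n i) ∧ ∑ i, ⌊f (n i)⌋ = (N : ℤ)}.ncard : ℝ) ≤ C * (X : ℝ) ^ (1 - δ)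

theorem result (k : ℕ) (hk : 2 ≤ k) (α : ℝ) (hα : 0 < α) :
    ∀ᵐ c : Fin k → ℝ, ∀ m : ℕ, k + 1 ≤ m →
      RepresentsAlmostAll (fun x => α * (x : ℝ) ^ k + ∑ j : Fin k, c j * (x : ℝ) ^ (j : ℕ)) m :=
  FWar.res_almost hk hα

end Pool.Agent.Retired.MP_ee77ae_nt.AlmostAllIntegers
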