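import Pool.Agent.HWar.Fin
import Pool.Agent.HWar.ParEx2
import Pool.Agent.HWar.LowerF
import Pool.Agent.IWar.FinF

/-!
# MP_ee77ae_nt: Waring's problem with `k + O(k^(3/4))` summands for almost all polynomials

`Represents f m`: every sufficiently large integer is a sum of exactly `m` terms `⌊f n⌋`, `n ≥ 1`, and
the sums of exactly `m` values `f n`, `n ≥ 1`, come arbitrarily close to every large real number.

Let `k ≥ 30 ^ 4`, let `g` be any real polynomial of degree less than `k` and let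
`4 k ^ (3/4) ≤ d ≤ k`. Then for almost every `t ∈ ℝ ^ d` the monic polynomial
`x ^ k + g(x) + t_0 x ^ (k-1) + t_1 x ^ (k-2) + ... + t_(d-1) x ^ (k-d)` of degree `k` has this property
for every `m ≥ k + 27 k ^ (3/4)`, and for no `m ≤ k`.
-/

namespace Pool.Agent.Results.MP_ee77ae_nt.AsymptoticallyK

open MeasureTheory

/-- Every sufficiently large integer is a sum of exactly `m` terms `⌊f n⌋`, and the sums of exactly
`m` values `f n` come arbitrarily close to every large real number (`n ≥ 1` throughout). -/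
def Represents (f : ℕ → ℝ) (m : ℕ) : Prop :=
  (∃ N0 : ℤ, ∀ N : ℤ, N0 ≤ N → ∃ n : Fin m → ℕ, (∀ i, 1 ≤ n i) ∧ ∑ i, ⌊f (n i)⌋ = N) ∧
  (∀ ε : ℝ, 0 < ε → ∃ Y : ℝ, ∀ y : ℝ, Y ≤ y → ∃ n : Fin m → ℕ, (∀ i, 1 ≤ n i) ∧
    |∑ i, f (n i) - y| < ε)

theorem result (k d : ℕ) (hk : 30 ^ 4 ≤ k) (hd : d ≤ k)
    (hdk : 4 * (k : ℝ) ^ ((3 : ℝ) / 4) ≤ d) (g : Polynomial ℝ) (hg : g.natDegree < k) :
    ∀ᵐ t : Fin d → ℝ,
      (∀ m : ℕ, (k : ℝ) + 27 * (k : ℝ) ^ ((3 : ℝ) / 4) ≤ m →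
        Represents (fun x => (x : ℝ) ^ k + g.eval (x : ℝ) +
          ∑ i : Fin d, t i * (x : ℝ) ^ (k - 1 - (i : ℕ))) m) ∧
      (∀ m : ℕ, m ≤ k → ¬ Represents (fun x => (x : ℝ) ^ k + g.eval (x : ℝ) +
          ∑ i : Fin d, t i * (x : ℝ) ^ (k - 1 - (i : ℕ))) m) := by
  obtain ⟨p, hs, h4, h5, hL⟩ := HWar.par_ex2 3 hk hd hdk
  have hp : IWar.ParF p := ⟨h4, h5, hL⟩
  filter_upwards [HWar.apx_ae p hg, IWar.exact_ae p hp hg] with t h1 h2
  refine ⟨fun m hm => ?_, fun m hm h => ?_⟩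
  · have hsm : p.s ≤ m := by exact_mod_cast hs.trans hm
    exact ⟨IWar.exact_mono hsm h2, HWar.apx_mono hsm h1⟩
  · have h3 : k < m := HWar.lowerF (by omega) hg t h.2
    omega

end Pool.Agent.Results.MP_ee77ae_nt.AsymptoticallyK
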