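import Pool.Agent.RWar.FinR
import Pool.Agent.RWar.FinA
import Pool.Agent.RWar.ParExR

/-!
# MP_ee77ae_nt: plain `k`-th powers and a few `k`-th powers with generic multipliers

For `0 < δ ≤ 1`, `ε > 0`, all large `k`, all `r ≥ (log (1/δ) + ε) k` and `T ≥ (δ + ε) k`, and almost every
`α ∈ ℝ^T` with positive coordinates every large integer is a sum of `r` positive `k`-th powers and `T`
terms `⌊α_j y_j^k⌋` with `y_j ≥ 1`; and the sums of `r` positive `k`-th powers and `T` terms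
`α_j y_j^k` come arbitrarily close to all large real numbers.
-/

namespace Pool.Agent.Results.MP_ee77ae_nt.FewMultipliers

open MeasureTheory

theorem result (δ ε : ℝ) (hδ : 0 < δ) (hδ1 : δ ≤ 1) (hε : 0 < ε) :
    ∃ k0 : ℕ, ∀ k : ℕ, k0 ≤ k → ∀ r T : ℕ, (Real.log (1 / δ) + ε) * k ≤ r → (δ + ε) * k ≤ T →
      ∀ᵐ α : Fin T → ℝ, (∀ j, 0 < α j) →
        (∃ N0 : ℤ, ∀ N : ℤ, N0 ≤ N → ∃ (x : Fin r → ℕ) (y : Fin T → ℕ),
          (∀ i, 1 ≤ x i) ∧ (∀ j, 1 ≤ y j) ∧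
            ∑ i, (x i : ℤ) ^ k + ∑ j, ⌊α j * (y j : ℝ) ^ k⌋ = N) ∧
        (∀ η : ℝ, 0 < η → ∃ M : ℝ, ∀ m : ℝ, M ≤ m → ∃ (x : Fin r → ℕ) (y : Fin T → ℕ),
          (∀ i, 1 ≤ x i) ∧ (∀ j, 1 ≤ y j) ∧
            |∑ i, (x i : ℝ) ^ k + ∑ j, α j * (y j : ℝ) ^ k - m| < η) := by
  obtain ⟨k0, h0⟩ := RWar.par_exR hδ hδ1 hε
  refine ⟨k0, fun k hk r T hr hT => ?_⟩
  obtain ⟨p, hp⟩ := h0 k hk T hT
  have hpr : p.n1 + p.n2 + 1 ≤ r := by exact_mod_cast hp.trans hr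
  filter_upwards [RWar.exact_aeR p, RWar.apx_aeR p] with α h1 h2 hα
  exact ⟨RWar.plain_mono hpr (h1 hα), RWar.apxR_mono hpr (h2 hα)⟩

end Pool.Agent.Results.MP_ee77ae_nt.FewMultipliers
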