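import Pool.Agent.FWar.ResK

/-!
# MP_ee77ae_nt: Waring's problem with `2k + 1` summands for almost all polynomials of degree `k`

`Represents f m`: every sufficiently large integer is a sum of exactly `m` terms `⌊f n⌋`, `n ≥ 1`, and
the sums of exactly `m` values `f n`, `n ≥ 1`, come arbitrarily close to every large real number.

Let `k ≥ 2`. For every leading coefficient `α > 0` (for instance `α = 1`) and almost every vector
of real lower coefficients the polynomial of degree `k` has this property for every `m ≥ 2k + 1`.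
-/

namespace Pool.Agent.Results.MP_ee77ae_nt.FloorPolynomials

open MeasureTheory

/-- Every sufficiently large integer is a sum of exactly `m` terms `⌊f n⌋`, and the sums of exactly
`m` values `f n` come arbitrarily close to every large real number (`n ≥ 1` throughout). -/
def Represents (f : ℕ → ℝ) (m : ℕ) : Prop :=
  (∃ N0 : ℤ, ∀ N : ℤ, N0 ≤ N → ∃ n : Fin m → ℕ, (∀ i, 1 ≤ n i) ∧ ∑ i, ⌊f (n i)⌋ = N) ∧
  (∀ ε : ℝ, 0 < ε → ∃ Y : ℝ, ∀ y : ℝ, Y ≤ y → ∃ n : Fin m → ℕ, (∀ i, 1 ≤ n i) ∧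
    |∑ i, f (n i) - y| < ε)

theorem result (k : ℕ) (hk : 2 ≤ k) (α : ℝ) (hα : 0 < α) :
    ∀ᵐ c : Fin k → ℝ, ∀ m : ℕ, 2 * k + 1 ≤ m →
      Represents (fun x => α * (x : ℝ) ^ k + ∑ j : Fin k, c j * (x : ℝ) ^ (j : ℕ)) m :=
  FWar.res_polyK hk hα

end Pool.Agent.Results.MP_ee77ae_nt.FloorPolynomials
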