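import Pool.Agent.FWar.ResS

/-!
# MP_ee77ae_nt: Waring's problem with `4k - 1` summands for shifted `k`-th powers, almost all shifts

`Represents f m`: every sufficiently large integer is a sum of exactly `m` terms `⌊f n⌋`, `n ≥ 1`, and
the sums of exactly `m` values `f n`, `n ≥ 1`, come arbitrarily close to every large real number.

Let `k ≥ 2`. For all real shifts `b` outside a set of Hausdorff dimension less than one (so for almost
all `b`), for every `α > 0`, the function `α (x + b)^k` has this property for all `m ≥ 4k - 1` and for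
all `m ≥ 4 (log 2) k + 7` (which is about `2.78 k`).
-/

namespace Pool.Agent.Results.MP_ee77ae_nt.ShiftedPowers

open MeasureTheory

/-- Every sufficiently large integer is a sum of exactly `m` terms `⌊f n⌋`, and the sums of exactly
`m` values `f n` come arbitrarily close to every large real number (`n ≥ 1` throughout). -/
def Represents (f : ℕ → ℝ) (m : ℕ) : Prop :=
  (∃ N0 : ℤ, ∀ N : ℤ, N0 ≤ N → ∃ n : Fin m → ℕ, (∀ i, 1 ≤ n i) ∧ ∑ i, ⌊f (n i)⌋ = N) ∧
  (∀ ε : ℝ, 0 < ε → ∃ Y : ℝ, ∀ y : ℝ, Y ≤ y → ∃ n : Fin m → ℕ, (∀ i, 1 ≤ n i) ∧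
    |∑ i, f (n i) - y| < ε)

theorem result (k : ℕ) (hk : 2 ≤ k) : ∃ d : ℝ, d < 1 ∧
    dimH {b : ℝ | ¬ ∀ m : ℕ, (4 * k - 1 ≤ m ∨ 4 * Real.log 2 * k + 7 ≤ (m : ℝ)) →
      ∀ α : ℝ, 0 < α → Represents (fun x => α * ((x : ℝ) + b) ^ k) m} ≤ ENNReal.ofReal d :=
  FWar.res_shift_dim hk

end Pool.Agent.Results.MP_ee77ae_nt.ShiftedPowers
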