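import Pool.Agent.SmW.Main

/-!
# MP_ee77ae_nt: Waring with 4k summands after a small random perturbation of few summands

Smoothed version of the question whether G(k) ≤ 4k.  Let k ≥ 2 and let e_n be independent random
natural numbers with P(e_n = j) ≥ c / n^(δ k) for 0 ≤ j ≤ n^(δ k) (the perturbation of n^k has size
(n^k)^δ).  If (1 - 1/k)^r < δ < 1 and (1 - 1/k)^r < t/k, then almost surely every large N is
x_1^k + ... + x_r^k + (y_1^k + e_(y_1)) + ... + (y_t^k + e_(y_t)) with positive integers x_i, y_i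
and distinct y_i.  For every k ≥ 2 this applies with r + t = 4k, t = ⌊k/53⌋ + 1, δ = 1/50.
-/

namespace Pool.Agent.Retired.MP_ee77ae_nt.SmoothedPowers

open Pool.Agent.SmW

theorem result :
    (∀ (k r t : ℕ) (δ : ℝ), 2 ≤ k → 1 ≤ t → ((1 : ℝ) - 1 / (k : ℝ)) ^ r < δ → δ < 1 →
      ((1 : ℝ) - 1 / (k : ℝ)) ^ r < (t : ℝ) / (k : ℝ) → NoisyWaring k r t δ) ∧
    (∀ k : ℕ, 2 ≤ k → NoisyWaring k (4 * k - (k / 53 + 1)) (k / 53 + 1) (1 / 50)) := by
  refine ⟨fun k r t δ hk ht h1 h2 h3 => noisyWaring k r t δ hk ht h1 h2 h3, fun k hk => ?_⟩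
  obtain ⟨h1, h2⟩ := numeric k hk
  exact noisyWaring k _ _ _ hk (by omega) h1 (by norm_num) h2

end Pool.Agent.Retired.MP_ee77ae_nt.SmoothedPowers
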